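import Mathlib
import Pool.Agent.helper83.FI4B.Spec

/-!
# Row BIA of project FI4+ (MP_baa4d7_al)

The inertia group of a Galois number field acts as the full Galois group on the roots of unity of
order `p ^ r`.
-/

set_option autoImplicit false

namespace Pool.Agent.FI4B

open Ideal NumberField IntermediateField

/-- The inertia group of `P` maps onto the Galois group of the field of `p ^ (k + 1)`-th roots of
unity. -/
theorem BIA_surj (p k : ℕ) [Fact p.Prime] (L : Type) [Field L] [NumberField L] [IsGalois ℚ L]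
    (P : Ideal (𝓞 L)) [P.IsPrime] [P.LiesOver (span {(p : ℤ)})]
    (F : IntermediateField ℚ L) [IsCyclotomicExtension {p ^ (k + 1)} ℚ F] [Normal ℚ F]
    (g : F ≃ₐ[ℚ] F) :
    ∃ τ : L ≃ₐ[ℚ] L, τ ∈ P.inertia (L ≃ₐ[ℚ] L) ∧ AlgEquiv.restrictNormalHom F τ = g := by
  have hp : p.Prime := Fact.out
  have hgF : IsGalois ℚ F := IsCyclotomicExtension.isGalois {p ^ (k + 1)} ℚ F
  haveI : (span {(p : ℤ)}).IsPrime := by
    rw [span_singleton_prime (by exact_mod_cast hp.ne_zero)]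
    exact Nat.prime_iff_prime_int.mp hp
  let P' : Ideal (𝓞 F) := P.under (𝓞 F)
  haveI : P.LiesOver P' := ⟨rfl⟩
  haveI : P'.LiesOver (span {(p : ℤ)}) := Ideal.LiesOver.tower_bot P P' _
  haveI : P'.IsPrime := inferInstance
  have h1 : Nat.card (P.inertia (L ≃ₐ[ℚ] L)) = (span {(p : ℤ)}).ramificationIdxIn (𝓞 L) :=
    card_inertia_eq_ramificationIdxIn (span {(p : ℤ)}) P
  have h2 : Nat.card (P.inertia (L ≃ₐ[F] L)) = P'.ramificationIdxIn (𝓞 L) :=
    card_inertia_eq_ramificationIdxIn P' P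
  haveI : Nonempty (P'.primesOver (𝓞 L)) := ⟨⟨P, inferInstance, inferInstance⟩⟩
  have h3 : (span {(p : ℤ)}).ramificationIdxIn (𝓞 F) * P'.ramificationIdxIn (𝓞 L) =
      (span {(p : ℤ)}).ramificationIdxIn (𝓞 L) :=
    ramificationIdxIn_mul_ramificationIdxIn P' (F ≃ₐ[ℚ] F) (𝓞 L) (L ≃ₐ[ℚ] L) (L ≃ₐ[F] L)
  have h4 : (span {(p : ℤ)}).ramificationIdxIn (𝓞 F) = p ^ k * (p - 1) :=
    IsCyclotomicExtension.Rat.ramificationIdxIn_eq_of_prime_pow p k F
  have h5 : Nat.card (F ≃ₐ[ℚ] F) = p ^ k * (p - 1) := by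
    rw [IsGalois.card_aut_eq_finrank, IsCyclotomicExtension.Rat.finrank (p ^ (k + 1)) F,
      Nat.totient_prime_pow_succ hp]
  let φ : P.inertia (L ≃ₐ[ℚ] L) →* (F ≃ₐ[ℚ] F) :=
    (AlgEquiv.restrictNormalHom F).comp (P.inertia (L ≃ₐ[ℚ] L)).subtype
  have h6 : Nat.card φ.ker ≤ Nat.card (P.inertia (L ≃ₐ[F] L)) := by
    have hfix : ∀ τ : φ.ker, τ.1.1 ∈ F.fixingSubgroup := by
      intro τ
      rw [IntermediateField.mem_fixingSubgroup_iff]
      intro x hx
      have h1 := AlgEquiv.restrictNormal_commutes τ.1.1 F ⟨x, hx⟩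
      have h2 : AlgEquiv.restrictNormal τ.1.1 F = 1 := τ.2
      rw [h2] at h1
      exact h1.symm
    have hmem : ∀ τ : φ.ker, F.fixingSubgroupEquiv ⟨τ.1.1, hfix τ⟩ ∈ P.inertia (L ≃ₐ[F] L) :=
      fun τ x => τ.1.2 x
    refine Nat.card_le_card_of_injective
      (fun τ : φ.ker => (⟨F.fixingSubgroupEquiv ⟨τ.1.1, hfix τ⟩, hmem τ⟩ :
        P.inertia (L ≃ₐ[F] L))) ?_
    intro a b hab
    have h1 := congrArg Subtype.val hab
    have h2 := F.fixingSubgroupEquiv.injective h1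
    have h3 := congrArg Subtype.val h2
    exact Subtype.ext (Subtype.ext h3)
  have h7 : Nat.card φ.ker * Nat.card φ.range = Nat.card (P.inertia (L ≃ₐ[ℚ] L)) := by
    rw [← Subgroup.index_ker, Subgroup.card_mul_index]
  have h8 : φ.range = ⊤ := by
    apply Subgroup.eq_top_of_card_eq
    apply le_antisymm (Subgroup.card_le_card_group _)
    have h9 : 0 < Nat.card (P.inertia (L ≃ₐ[F] L)) := Nat.card_pos
    rw [h1, ← h3, h4, ← h5, ← h2] at h7
    have h10 : Nat.card (F ≃ₐ[ℚ] F) * Nat.card (P.inertia (L ≃ₐ[F] L)) ≤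
        Nat.card φ.range * Nat.card (P.inertia (L ≃ₐ[F] L)) := by
      rw [← h7, mul_comm]
      exact Nat.mul_le_mul_left _ h6
    exact Nat.le_of_mul_le_mul_right h10 h9
  have h9 : g ∈ φ.range := by rw [h8]; trivial
  obtain ⟨τ, hτ⟩ := h9
  exact ⟨τ.1, τ.2, hτ⟩

theorem BIA : BIA_stmt := by
  intro p r hp L _ _ _ P hP hpP ζ hζ s hs
  haveI : Fact p.Prime := ⟨hp⟩
  rcases r with _ | k
  · have h1 : ζ = 1 := by simpa using hζ
    refine ⟨AlgEquiv.refl, by simp [h1], fun x y h => ?_⟩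
    have h2 : y = 0 := by
      apply RingOfIntegers.ext
      simpa using h
    rw [h2]
    exact P.zero_mem
  · haveI : NeZero (p ^ (k + 1)) := ⟨pow_ne_zero _ hp.ne_zero⟩
    let F : IntermediateField ℚ L := IntermediateField.adjoin ℚ {ζ}
    haveI : IsCyclotomicExtension {p ^ (k + 1)} ℚ F :=
      (IntermediateField.isCyclotomicExtension_singleton_iff_eq_adjoin _ _ _ _ hζ).mpr rfl
    haveI : IsGalois ℚ F := IsCyclotomicExtension.isGalois {p ^ (k + 1)} ℚ F
    haveI : P.LiesOver (span {(p : ℤ)}) := by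
      rw [liesOver_iff]
      refine IsMaximal.eq_of_le (Int.ideal_span_isMaximal_of_prime p) IsPrime.ne_top' ?_
      rw [span_singleton_le_iff_mem, mem_comap, algebraMap_int_eq, map_natCast]
      exact hpP
    have hc : s.Coprime (p ^ (k + 1)) := Nat.Coprime.pow_right _ hs
    let g := (IsCyclotomicExtension.Rat.galEquivZMod (p ^ (k + 1)) F).symm (ZMod.unitOfCoprime s hc)
    have hζF : ζ ∈ F := IntermediateField.mem_adjoin_simple_self ℚ ζ
    have hz : (⟨ζ, hζF⟩ : F) ^ (p ^ (k + 1)) = 1 := Subtype.ext hζ.pow_eq_one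
    have hg : g ⟨ζ, hζF⟩ = (⟨ζ, hζF⟩ : F) ^ s := by
      rw [IsCyclotomicExtension.Rat.galEquivZMod_apply_of_pow_eq (p ^ (k + 1)) F g hz]
      have h1 : IsCyclotomicExtension.Rat.galEquivZMod (p ^ (k + 1)) F g =
          ZMod.unitOfCoprime s hc := MulEquiv.apply_symm_apply _ _
      rw [h1, ZMod.coe_unitOfCoprime, ZMod.val_natCast]
      exact (pow_eq_pow_mod s hz).symm
    obtain ⟨τ, hτ, hτg⟩ := BIA_surj p k L P F g
    refine ⟨τ, ?_, fun x y h => ?_⟩
    · have h1 := AlgEquiv.restrictNormal_commutes τ F ⟨ζ, hζF⟩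
      have h2 : AlgEquiv.restrictNormal τ F = g := hτg
      rw [h2, hg] at h1
      exact h1.symm
    · have h1 : y = τ • x - x := by
        apply RingOfIntegers.ext
        rw [h]
        rfl
      rw [h1]
      exact hτ x

end Pool.Agent.FI4B
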